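import Pool.Agent.U797.NL.Spec2
import Pool.Agent.U312.NL.ITER
import Pool.Agent.U797.LV.Cells

set_option autoImplicit false

/-! Package ITER2 of project NL (helper797): the iteration for the chromatic number (helper491). -/

namespace Pool.Agent.U491.NL

open Finset
open scoped Classical
open Pool.Agent.U797.LV (nb mem_nb low_colour)
open Pool.Agent.U797.NL
open Pool.Agent.U312.NL (sub sub_adj sub_nb sub_tree sub_free nbhd_free)

theorem colorable_of_nat {V : Type} {G : SimpleGraph V} {s : ℕ} (f : V → ℕ) (h1 : ∀ v, f v < s)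
    (h2 : ∀ v u, G.Adj v u → f v ≠ f u) : G.Colorable s :=
  ⟨SimpleGraph.Coloring.mk (fun v => (⟨f v, h1 v⟩ : Fin s)) fun {v u} h heq =>
    h2 v u h (by simpa using congrArg Fin.val heq)⟩

theorem small {V : Type} [Fintype V] (G : SimpleGraph V) {D B : ℝ} (hD1 : 1 ≤ D) (hB : 2 * D ≤ B)
    (hD : ∀ v, ((nb G v).card : ℝ) ≤ D) : G.Colorable ⌊B⌋₊ := by
  obtain ⟨f, h1, h2⟩ := low_colour (G := G) (s := ⌊D⌋₊ + 1) univ (by
    intro v _
    exact Nat.lt_succ_of_le (Nat.le_floor (hD v)))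
  have h3 : G.Colorable (⌊D⌋₊ + 1) := colorable_of_nat f (fun v => h1 v (mem_univ v))
    (fun v u h => h2 v (mem_univ v) u (mem_univ u) h)
  refine h3.mono (Nat.le_floor ?_)
  have := Nat.floor_le (show 0 ≤ D by linarith)
  push_cast
  linarith

theorem combine {V : Type} (G : SimpleGraph V) (M : ℕ) (f : V → ℕ × ℕ) (J nn : ℕ → ℕ)
    (hf1 : ∀ v, (f v).1 < M) (hf2 : ∀ v, (f v).2 < J (f v).1)
    (hc : ∀ x : ℕ × ℕ, ∃ h : V → ℕ, (∀ v, f v = x → h v < nn x.1) ∧
      ∀ v u, f v = x → f u = x → G.Adj v u → h v ≠ h u) :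
    G.Colorable (∑ i ∈ range M, J i * nn i) := by
  choose h hh1 hh2 using hc
  let S : Finset ((ℕ × ℕ) × ℕ) := (range M).biUnion fun i =>
    (range (J i) ×ˢ range (nn i)).image fun p => ((i, p.1), p.2)
  have hS : S.card ≤ ∑ i ∈ range M, J i * nn i := by
    refine card_biUnion_le.trans (sum_le_sum fun i _ => ?_)
    refine card_image_le.trans ?_
    rw [card_product, card_range, card_range]
  have hmem : ∀ v, (f v, h (f v) v) ∈ S := by
    intro v
    rw [mem_biUnion]
    refine ⟨(f v).1, mem_range.2 (hf1 v), ?_⟩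
    rw [mem_image]
    refine ⟨((f v).2, h (f v) v), ?_, rfl⟩
    rw [mem_product, mem_range, mem_range]
    exact ⟨hf2 v, hh1 _ v rfl⟩
  let hcol : G.Coloring {x // x ∈ S} := SimpleGraph.Coloring.mk (fun v => ⟨_, hmem v⟩) (by
    intro v u hvu heq
    have h1 := congrArg Subtype.val heq
    have h2 : f v = f u := congrArg Prod.fst h1
    have h3 : h (f v) v = h (f u) u := congrArg Prod.snd h1
    rw [← h2] at h3
    exact hh2 (f v) v u rfl h2.symm hvu h3)
  have h4 := hcol.colorable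
  rw [Fintype.card_coe] at h4
  exact h4.mono hS

theorem claim {n k K' E : ℕ} {T : SimpleGraph (Fin (n + 1))} {q D0 : ℝ} {Q : ℕ} {c : ℕ → ℕ}
    (hK : 1 ≤ K') (hE : 1 ≤ E) (hq : 2 * (n + 2 : ℝ) ≤ q) (hc : ∀ i, 1 ≤ c i ∧ c i ≤ E)
    (step : ∀ (V : Type) [Fintype V] (G : SimpleGraph V) (D : ℝ) (ψ : V → V → ℕ), 1 ≤ D → D ≤ D0 →
      (∀ v, ((nb G v).card : ℝ) ≤ D) → G.CliqueFree k → ¬ T.IsIndContained G →
      (∀ a y, ψ a y < Q) →
      (∀ a y y', G.Adj a y → G.Adj a y' → G.Adj y y' → ψ a y ≠ ψ a y') →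
      ∃ f : V → ℕ × ℕ, ∀ v, (f v).1 ≤ n + 1 ∧ ((f v).2 : ℝ) < q ^ (c (f v).1) ∧
      (((nb G v).filter (fun u => f u = f v)).card : ℝ) ≤ D / q ^ (2 * K' * c (f v).1)) (N : ℕ) :
    ∀ (V : Type) [Fintype V] (G : SimpleGraph V) (D : ℝ) (ψ : V → V → ℕ), 1 ≤ D → D ≤ D0 →
      D ≤ 2 ^ N → (∀ v, ((nb G v).card : ℝ) ≤ D) → G.CliqueFree k → ¬ T.IsIndContained G →
      (∀ a y, ψ a y < Q) →
      (∀ a y y', G.Adj a y → G.Adj a y' → G.Adj y y' → ψ a y ≠ ψ a y') →
      G.Colorable ⌊2 * q ^ (E * (2 * K')) * D ^ (1 / (K' : ℝ))⌋₊ := by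
  have hn : (0 : ℝ) ≤ n := Nat.cast_nonneg _
  have hq0 : 0 < q := by linarith
  have hq1 : 1 ≤ q := by linarith
  have hq2 : 2 ≤ q := by linarith
  have hKr : (0 : ℝ) < K' := by exact_mod_cast hK
  have hqEK : q ≤ q ^ (E * (2 * K')) := by
    calc q = q ^ 1 := (pow_one q).symm
      _ ≤ q ^ (E * (2 * K')) := pow_le_pow_right₀ hq1 (Nat.mul_pos hE (by omega))
  -- the case of small degrees
  have hsmall : ∀ (V : Type) [Fintype V] (G : SimpleGraph V) (D : ℝ), 1 ≤ D →
      D < q ^ (E * (2 * K')) → (∀ v, ((nb G v).card : ℝ) ≤ D) →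
      G.Colorable ⌊2 * q ^ (E * (2 * K')) * D ^ (1 / (K' : ℝ))⌋₊ := by
    intro V _ G D hD1 hDq hD
    refine small G hD1 ?_ hD
    have h1 : 1 ≤ D ^ (1 / (K' : ℝ)) := Real.one_le_rpow hD1 (by positivity)
    calc 2 * D ≤ 2 * q ^ (E * (2 * K')) * 1 := by linarith
      _ ≤ 2 * q ^ (E * (2 * K')) * D ^ (1 / (K' : ℝ)) :=
        mul_le_mul_of_nonneg_left h1 (by positivity)
  induction N with
  | zero =>
    intro V _ G D ψ hD1 _ hDN hD _ _ _ _
    exact hsmall V G D hD1 (by rw [pow_zero] at hDN; linarith) hD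
  | succ N ih =>
    intro V _ G D ψ hD1 hDD0 hDN hD hfree hT hψ1 hψ2
    by_cases hDq : D < q ^ (E * (2 * K'))
    · exact hsmall V G D hD1 hDq hD
    push Not at hDq
    have hD0 : 0 < D := by linarith
    obtain ⟨f, hf⟩ := step V G D ψ hD1 hDD0 hD hfree hT hψ1 hψ2
    obtain ⟨B, hB⟩ : ∃ B, B = 2 * q ^ (E * (2 * K')) * D ^ (1 / (K' : ℝ)) := ⟨_, rfl⟩
    have hB0 : 0 < B := by rw [hB]; positivity
    have hroot : ∀ i, (D / q ^ (2 * K' * c i)) ^ (1 / (K' : ℝ)) =
        D ^ (1 / (K' : ℝ)) / q ^ (2 * c i) := by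
      intro i
      have h0 : 0 < q ^ (2 * K' * c i) := by positivity
      rw [Real.div_rpow hD0.le h0.le]
      congr 1
      have h1 : 2 * K' * c i = (2 * c i) * K' := by ring
      rw [h1, pow_mul, ← Real.rpow_natCast (q ^ (2 * c i)) K', ← Real.rpow_mul (by positivity),
        mul_one_div_cancel hKr.ne', Real.rpow_one]
    have hcol := combine G (n + 2) f (fun i => ⌈q ^ (c i)⌉₊)
      (fun i => ⌊2 * q ^ (E * (2 * K')) * (D / q ^ (2 * K' * c i)) ^ (1 / (K' : ℝ))⌋₊)
      (fun v => by have := (hf v).1; omega) (fun v => Nat.lt_ceil.2 (hf v).2.1) (by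
        intro x
        have hcK : 0 < q ^ (2 * K' * c x.1) := by positivity
        have hcK1 : q ^ (2 * K' * c x.1) ≤ q ^ (E * (2 * K')) := by
          apply pow_le_pow_right₀ hq1
          rw [mul_comm E]
          exact Nat.mul_le_mul_left _ (hc x.1).2
        have hcK2 : 2 ≤ q ^ (2 * K' * c x.1) := by
          calc 2 ≤ q := hq2
            _ = q ^ 1 := (pow_one q).symm
            _ ≤ q ^ (2 * K' * c x.1) := pow_le_pow_right₀ hq1
              (Nat.mul_pos (by omega) (hc x.1).1)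
        have hD'1 : 1 ≤ D / q ^ (2 * K' * c x.1) := by
          rw [one_le_div hcK]
          exact hcK1.trans hDq
        have hD'0 : D / q ^ (2 * K' * c x.1) ≤ D0 := by
          refine le_trans ?_ hDD0
          rw [div_le_iff₀ hcK]
          nlinarith
        have hD'2 : D / q ^ (2 * K' * c x.1) ≤ 2 ^ N := by
          rw [div_le_iff₀ hcK]
          rw [pow_succ] at hDN
          have : (0 : ℝ) < 2 ^ N := by positivity
          nlinarith
        obtain ⟨F⟩ := ih {y // y ∈ univ.filter (fun v => f v = x)}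
          (sub G (univ.filter (fun v => f v = x))) (D / q ^ (2 * K' * c x.1))
          (fun a y => ψ a.1 y.1) hD'1 hD'0 hD'2
          (fun v => by
            have hv : f v.1 = x := (mem_filter.1 v.2).2
            have h1 := (hf v.1).2.2
            rw [hv] at h1
            refine le_trans ?_ h1
            have h2 := sub_nb (G := G) v
            have h3 : nb G v.1 ∩ univ.filter (fun v => f v = x) =
                (nb G v.1).filter (fun u => f u = x) := by
              ext u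
              simp
            rw [h3] at h2
            exact_mod_cast h2)
          (sub_free hfree _) (sub_tree hT _) (fun a y => hψ1 a.1 y.1)
          (fun a y y' h1 h2 h3 => hψ2 a.1 y.1 y'.1 (sub_adj.1 h1) (sub_adj.1 h2) (sub_adj.1 h3))
        refine ⟨fun v => if hv : v ∈ univ.filter (fun v => f v = x) then (F ⟨v, hv⟩ : ℕ) else 0,
          ?_, ?_⟩
        · intro v hv
          have hv' : v ∈ univ.filter (fun v => f v = x) := mem_filter.2 ⟨mem_univ _, hv⟩
          beta_reduce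
          rw [dif_pos hv']
          exact (F ⟨v, hv'⟩).2
        · intro v u hv hu hvu
          have hv' : v ∈ univ.filter (fun v => f v = x) := mem_filter.2 ⟨mem_univ _, hv⟩
          have hu' : u ∈ univ.filter (fun v => f v = x) := mem_filter.2 ⟨mem_univ _, hu⟩
          beta_reduce
          rw [dif_pos hv', dif_pos hu']
          intro heq
          have h1 : (sub G (univ.filter (fun v => f v = x))).Adj ⟨v, hv'⟩ ⟨u, hu'⟩ :=
            sub_adj.2 hvu
          exact F.valid h1 (Fin.ext heq))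
    refine hcol.mono (Nat.le_floor ?_)
    rw [← hB]
    push_cast
    have hterm : ∀ i ∈ range (n + 2), (⌈q ^ (c i)⌉₊ : ℝ) *
        (⌊2 * q ^ (E * (2 * K')) * (D / q ^ (2 * K' * c i)) ^ (1 / (K' : ℝ))⌋₊ : ℝ) ≤
        2 * B / q := by
      intro i _
      have hci : 0 < q ^ (c i) := by positivity
      have hci1 : q ≤ q ^ (c i) := by
        calc q = q ^ 1 := (pow_one q).symm
          _ ≤ q ^ (c i) := pow_le_pow_right₀ hq1 (hc i).1
      have h1 : (⌈q ^ (c i)⌉₊ : ℝ) ≤ 2 * q ^ (c i) := by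
        have := (Nat.ceil_lt_add_one hci.le).le
        linarith
      have h2 : (⌊2 * q ^ (E * (2 * K')) * (D / q ^ (2 * K' * c i)) ^ (1 / (K' : ℝ))⌋₊ : ℝ) ≤
          B / q ^ (2 * c i) := by
        refine (Nat.floor_le (by positivity)).trans ?_
        rw [hroot i, hB]
        apply le_of_eq
        ring
      have h3 : (0 : ℝ) ≤ (⌊2 * q ^ (E * (2 * K')) *
        (D / q ^ (2 * K' * c i)) ^ (1 / (K' : ℝ))⌋₊ : ℝ) := Nat.cast_nonneg _
      calc _ ≤ 2 * q ^ (c i) * (B / q ^ (2 * c i)) :=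
            mul_le_mul h1 h2 h3 (by positivity)
        _ = 2 * B / q ^ (c i) := by
            rw [two_mul (c i), pow_add]
            field_simp
        _ ≤ 2 * B / q := div_le_div_of_nonneg_left (by positivity) hq0 hci1
    refine (sum_le_sum hterm).trans ?_
    rw [sum_const, card_range, nsmul_eq_mul]
    push_cast
    rw [← mul_div_assoc, div_le_iff₀ hq0]
    nlinarith

theorem t_ITER2 : Pool.Agent.U797.NL.S_ITER2 := by
  intro hP n k T hk hT
  induction k, hk using Nat.le_induction with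
  | base =>
    intro ε hε
    refine ⟨1, le_rfl, ?_⟩
    intro V _ G D hD1 hD hfree _
    have h2 : ∀ v u, ¬ G.Adj v u := by
      intro v u hvu
      apply hfree {v, u}
      rw [SimpleGraph.isNClique_iff]
      refine ⟨?_, card_pair hvu.ne⟩
      intro x hx y hy hxy
      rw [mem_coe, mem_insert, mem_singleton] at hx hy
      rcases hx with rfl | rfl <;> rcases hy with rfl | rfl
      · exact absurd rfl hxy
      · exact hvu
      · exact hvu.symm
      · exact absurd rfl hxy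
    have h1 : 1 ≤ D ^ ε := Real.one_le_rpow hD1 hε.le
    have h3 : G.Colorable 1 := colorable_of_nat (fun _ => 0) (fun _ => Nat.one_pos)
      fun v u h => absurd h (h2 v u)
    refine h3.mono (Nat.le_floor ?_)
    push_cast
    linarith
  | succ k hk ih =>
    intro ε hε
    obtain ⟨K', hK'⟩ : ∃ K' : ℕ, K' = ⌈2 / ε⌉₊ + 1 := ⟨_, rfl⟩
    have hK1 : 1 ≤ K' := by omega
    have hKr : (0 : ℝ) < K' := by exact_mod_cast hK1
    have hKε : 1 / (K' : ℝ) ≤ ε / 2 := by
      have h1 : 2 / ε ≤ K' := by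
        have := Nat.le_ceil (2 / ε)
        rw [hK']
        push_cast
        linarith
      rw [div_le_iff₀ hε] at h1
      rw [div_le_iff₀ hKr]
      linarith
    obtain ⟨E, hE1, q0, hq0, c, hc, hstep⟩ := hP n (k + 1) (2 * K') T (by omega) (by omega) hT
    have hEr : (0 : ℝ) < E := by exact_mod_cast hE1
    obtain ⟨ε', hε'⟩ : ∃ ε', ε' = ε / (2 * E * (2 * K')) := ⟨_, rfl⟩
    have hε'0 : 0 < ε' := by rw [hε']; positivity
    obtain ⟨C', hC'1, hC'⟩ := ih ε' hε'0
    have hC'0 : 0 < C' := by linarith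
    obtain ⟨A, hA⟩ : ∃ A : ℝ, A = q0 + 2 * (n + 2) + 1 / ε' := ⟨_, rfl⟩
    have hn : (0 : ℝ) ≤ n := Nat.cast_nonneg _
    have he1 : 0 < 1 / ε' := by positivity
    have hA1 : q0 ≤ A := by rw [hA]; linarith
    have hA2 : 2 * (n + 2 : ℝ) ≤ A := by rw [hA]; linarith
    have hA3 : 1 / ε' ≤ A := by rw [hA]; linarith
    have hA4 : 2 ≤ A := by linarith
    have hAC : 1 ≤ A * C' := by nlinarith
    refine ⟨2 * (A * C') ^ (E * (2 * K')), ?_, ?_⟩
    · have : 1 ≤ (A * C') ^ (E * (2 * K')) := one_le_pow₀ hAC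
      linarith
    intro V _ G D hD1 hD hfree hTG
    have hD0 : 0 < D := by linarith
    have hDε : 1 ≤ D ^ ε' := Real.one_le_rpow hD1 hε'0.le
    have hCD : 1 ≤ C' * D ^ ε' := by nlinarith
    obtain ⟨q, hq⟩ : ∃ q, q = A * C' * D ^ ε' := ⟨_, rfl⟩
    have hAq : A ≤ q := by
      rw [hq, mul_assoc]
      nlinarith
    obtain ⟨Q, hQ⟩ : ∃ Q : ℕ, Q = ⌊C' * D ^ ε'⌋₊ := ⟨_, rfl⟩
    have hQpos : 0 < Q := by
      rw [hQ]
      exact Nat.floor_pos.2 hCD
    have hQq : (Q : ℝ) ≤ q := by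
      have h1 : (Q : ℝ) ≤ C' * D ^ ε' := by
        rw [hQ]
        exact Nat.floor_le (by positivity)
      refine h1.trans ?_
      rw [hq, mul_assoc]
      nlinarith
    have hlog : Real.log D ≤ q := by
      have h1 := Real.log_le_rpow_div hD0.le hε'0
      refine h1.trans ?_
      rw [hq, div_eq_mul_one_div, mul_comm]
      have h2 : 1 / ε' * D ^ ε' ≤ A * D ^ ε' :=
        mul_le_mul_of_nonneg_right hA3 (by positivity)
      refine h2.trans ?_
      refine mul_le_mul_of_nonneg_right ?_ (by positivity)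
      nlinarith
    -- the colourings of the neighbourhoods
    have hcol' : ∀ a : V, ∃ f : V → ℕ, (∀ y, f y < Q) ∧ ∀ y y', G.Adj a y → G.Adj a y' →
        G.Adj y y' → f y ≠ f y' := by
      intro a
      have h0 : (sub G (nb G a)).Colorable Q := by
        rw [hQ]
        refine hC' {x // x ∈ nb G a} (sub G (nb G a)) D hD1 (fun v => ?_)
          (nbhd_free hfree (Finset.Subset.refl _)) (sub_tree hTG _)
        refine le_trans ?_ (hD v.1)
        have h1 := sub_nb (G := G) v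
        have h2 : (nb G v.1 ∩ nb G a).card ≤ (nb G v.1).card := card_le_card inter_subset_left
        exact_mod_cast h1.trans h2
      obtain ⟨F⟩ := h0
      refine ⟨fun y => if h : y ∈ nb G a then (F ⟨y, h⟩ : ℕ) else 0, ?_, ?_⟩
      · intro y
        dsimp only
        split_ifs with h
        · exact (F ⟨y, h⟩).2
        · exact hQpos
      · intro y y' hy hy' hyy
        dsimp only
        rw [dif_pos (mem_nb.2 hy), dif_pos (mem_nb.2 hy')]
        intro heq
        have h1 : (sub G (nb G a)).Adj ⟨y, mem_nb.2 hy⟩ ⟨y', mem_nb.2 hy'⟩ := sub_adj.2 hyy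
        exact F.valid h1 (Fin.ext heq)
    choose ψ hψ1 hψ2 using hcol'
    obtain ⟨N, hN⟩ := pow_unbounded_of_one_lt D (by norm_num : (1 : ℝ) < 2)
    have hmain := claim (q := q) (D0 := D) (Q := Q) (c := c) hK1 hE1 (hA2.trans hAq) hc
      (fun V' _ G' D' ψ' h1 h2 h3 h4 h5 h6 h7 =>
        hstep q (hA1.trans hAq) V' G' D' Q ψ' h1
          ((Real.log_le_log (by linarith) h2).trans hlog) hQq h3 h4 h5 h6 h7)
      N V G D ψ hD1 le_rfl hN.le hD hfree hTG hψ1 hψ2
    refine hmain.mono (Nat.floor_le_floor ?_)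
    have h1 : q ^ (E * (2 * K')) = (A * C') ^ (E * (2 * K')) * D ^ (ε / 2) := by
      rw [hq, mul_pow]
      congr 1
      rw [← Real.rpow_natCast, ← Real.rpow_mul hD0.le]
      congr 1
      rw [hε']
      push_cast
      field_simp
    have h2 : D ^ (ε / 2) * D ^ (1 / (K' : ℝ)) ≤ D ^ ε := by
      rw [← Real.rpow_add hD0]
      exact Real.rpow_le_rpow_of_exponent_le hD1 (by linarith)
    have h3 : 0 < (A * C') ^ (E * (2 * K')) := by positivity
    calc 2 * q ^ (E * (2 * K')) * D ^ (1 / (K' : ℝ)) =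
        2 * (A * C') ^ (E * (2 * K')) * (D ^ (ε / 2) * D ^ (1 / (K' : ℝ))) := by rw [h1]; ring
      _ ≤ 2 * (A * C') ^ (E * (2 * K')) * D ^ ε := mul_le_mul_of_nonneg_left h2 (by positivity)

end Pool.Agent.U491.NL
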